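import Pool.Agent.K1H32.CP.Fwd

/-!
# The back step: producing an evaluation as a finite combination of rows
-/

set_option autoImplicit false
set_option linter.unusedSectionVars false

open Filter Topology Set

namespace Pool.Agent.K1H32.CP

universe u v

theorem norm_tri {E F : Type*} [NormedAddCommGroup E] [NormedSpace ℝ E]
    [NormedAddCommGroup F] [NormedSpace ℝ F] {A B C : E →L[ℝ] F} {a b : ℝ} (h1 : ‖A - B‖ ≤ a)
    (h2 : ‖B - C‖ ≤ b) : ‖A - C‖ ≤ a + b :=
  (norm_sub_le_norm_sub_add_norm_sub A B C).trans (add_le_add h1 h2)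

theorem opn {E F : Type*} [NormedAddCommGroup E] [NormedSpace ℝ E]
    [NormedAddCommGroup F] [NormedSpace ℝ F] (A : E →L[ℝ] F) : 0 ≤ ‖A‖ := norm_nonneg _

theorem norm_self {E F : Type*} [NormedAddCommGroup E] [NormedSpace ℝ E]
    [NormedAddCommGroup F] [NormedSpace ℝ F] (A : E →L[ℝ] F) {a : ℝ} (ha : 0 ≤ a) :
    ‖A - A‖ ≤ a := by
  rw [sub_self, norm_zero]
  exact ha

theorem norm_apply_sub {E F : Type*} [NormedAddCommGroup E] [NormedSpace ℝ E]
    [NormedAddCommGroup F] [NormedSpace ℝ F] {A B : E →L[ℝ] F} {a : ℝ} (h : ‖A - B‖ ≤ a) (f : E) :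
    ‖A f - B f‖ ≤ a * ‖f‖ := by
  have h1 := (A - B).le_opNorm f
  rw [sub_apply] at h1
  exact h1.trans (mul_le_mul_of_nonneg_right h (norm_nonneg _))

/-- adding finitely many small operators -/
theorem norm_add_sum {E F : Type*} [NormedAddCommGroup E] [NormedSpace ℝ E]
    [NormedAddCommGroup F] [NormedSpace ℝ F] {ι : Type*} (s : Finset ι) (A : E →L[ℝ] F)
    (R : ι → E →L[ℝ] F) (c : ι → ℝ) (h : ∀ i ∈ s, ‖R i‖ ≤ c i) :
    ‖A + ∑ i ∈ s, R i - A‖ ≤ ∑ i ∈ s, c i := by
  rw [add_sub_cancel_left]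
  exact norm_sum_le_of_le s h

variable {K : Type u} [TopologicalSpace K] [CompactSpace K] [T2Space K] [Countable K]
variable {L : Type v} [TopologicalSpace L] [CompactSpace L] [T2Space L] [Countable L]

theorem fwdAll {T : C(K, ℝ) →L[ℝ] C(L, ℝ)} (hT : Pos T) (F B : Finset L)
    (hF : ∀ y ∈ F, FS fun f => T f y) {ε : ℝ} (hε : 0 < ε) :
    ∃ T' : C(K, ℝ) →L[ℝ] C(L, ℝ), Pos T' ∧ ‖T' - T‖ ≤ ε ∧
      (∀ f : C(K, ℝ), (∀ x, 0 ≤ f x) → ∀ z, T' f z ≤ T f z) ∧
      (∀ z ∈ F, ∀ f, T' f z = T f z) ∧ (∀ y ∈ F, FS fun f => T' f y) ∧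
      ∀ y ∈ B, FS fun f => T' f y := by
  classical
  induction B using Finset.induction_on generalizing ε with
  | empty =>
    exact ⟨T, hT, norm_self T hε.le, fun f _ z => le_rfl, fun z _ f => rfl, hF, by simp⟩
  | insert y B hy ih =>
    obtain ⟨T1, h1, h2, h3, h4, h5, h6⟩ := ih (ε := ε / 2) (by linarith)
    by_cases hyF : y ∈ F
    · refine ⟨T1, h1, h2.trans (by linarith), h3, h4, h5, fun z hz => ?_⟩
      rw [Finset.mem_insert] at hz
      rcases hz with rfl | hz
      · exact h5 z hyF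
      · exact h6 z hz
    · have hyFB : y ∉ F ∪ B := by
        rw [Finset.mem_union]
        exact fun h => h.elim hyF hy
      obtain ⟨T', k1, k2, k3, k4, k5⟩ := fwd h1 (F ∪ B) hyFB (ε := ε / 2) (by linarith)
      refine ⟨T', k1, ?_, fun f hf z => (k3 f hf z).trans (h3 f hf z), ?_, ?_, ?_⟩
      · exact (norm_tri k2 h2).trans (by linarith)
      · intro z hz f
        rw [k4 z (Finset.mem_union_left _ hz), h4 z hz]
      · intro z hz
        exact (h5 z hz).congr fun f => k4 z (Finset.mem_union_left _ hz) f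
      · intro z hz
        rw [Finset.mem_insert] at hz
        rcases hz with rfl | hz
        · exact k5
        · exact (h6 z hz).congr fun f => k4 z (Finset.mem_union_right _ hz) f

/-- representatives of the signs -/
theorem exists_signs (lam : L → ℝ) (F : Finset L) : ∃ c : ℝ, 0 < c ∧ ∃ B0 : Finset L,
    (∀ y ∈ B0, y ∉ F) ∧ ((∀ y, y ∉ F → lam y ≤ 0) ∨ ∃ y ∈ B0, c ≤ lam y) ∧
      ((∀ y, y ∉ F → 0 ≤ lam y) ∨ ∃ y ∈ B0, c ≤ -lam y) := by
  classical
  by_cases h1 : ∀ y, y ∉ F → lam y ≤ 0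
  · by_cases h2 : ∀ y, y ∉ F → 0 ≤ lam y
    · exact ⟨1, one_pos, ∅, by simp, Or.inl h1, Or.inl h2⟩
    · push Not at h2
      obtain ⟨y, hy, hy2⟩ := h2
      exact ⟨-lam y, by linarith, {y}, by simpa using hy, Or.inl h1, Or.inr ⟨y, by simp, le_rfl⟩⟩
  · push Not at h1
    obtain ⟨y, hy, hy2⟩ := h1
    by_cases h2 : ∀ y, y ∉ F → 0 ≤ lam y
    · exact ⟨lam y, hy2, {y}, by simpa using hy, Or.inr ⟨y, by simp, le_rfl⟩, Or.inl h2⟩
    · push Not at h2
      obtain ⟨z, hz, hz2⟩ := h2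
      refine ⟨min (lam y) (-lam z), lt_min hy2 (by linarith), {y, z}, ?_,
        Or.inr ⟨y, by simp, min_le_left _ _⟩, Or.inr ⟨z, by simp, min_le_right _ _⟩⟩
      intro w hw
      rw [Finset.mem_insert, Finset.mem_singleton] at hw
      rcases hw with rfl | rfl
      · exact hy
      · exact hz

/-- the rank one operator `f ↦ f z · 1_U` -/
noncomputable def rk (z : K) (U : Set L) (hU : IsClopen U) : C(K, ℝ) →L[ℝ] C(L, ℝ) :=
  (ContinuousMap.evalCLM ℝ z).smulRight (ind U hU)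

theorem rk_apply (z : K) (U : Set L) (hU : IsClopen U) (f : C(K, ℝ)) (y : L) :
    rk z U hU f y = f z * ind U hU y := rfl

theorem rk_norm (z : K) (U : Set L) (hU : IsClopen U) {c : ℝ} (hc : 0 ≤ c) :
    ‖c • rk z U hU‖ ≤ c := by
  refine ContinuousLinearMap.opNorm_le_bound _ hc fun f => ?_
  rw [ContinuousMap.norm_le _ (mul_nonneg hc (norm_nonneg _))]
  intro y
  change ‖c * (f z * ind U hU y)‖ ≤ c * ‖f‖
  rw [norm_mul, norm_mul, Real.norm_of_nonneg hc, Real.norm_of_nonneg (ind_nonneg hU y)]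
  exact mul_le_mul_of_nonneg_left ((mul_le_of_le_one_right (norm_nonneg _) (ind_le_one hU y)).trans
    (f.norm_coe_le_norm z)) hc

/-- evaluating a finite combination at a clopen indicator isolating one point of the support -/
theorem lc_ind [DecidableEq K] {e : K →₀ ℝ} {V : Set K} (hV : IsClopen V) {z : K} (hzV : z ∈ V)
    (h : ∀ w ∈ e.support.erase z, w ∉ V) :
    Finsupp.linearCombination ℝ (fun w => ind V hV w) e = e z := by
  rw [Finsupp.linearCombination_apply, Finsupp.sum]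
  by_cases hz : z ∈ e.support
  · rw [← Finset.add_sum_erase _ _ hz, ind_mem hV hzV, smul_eq_mul, mul_one,
      Finset.sum_eq_zero, add_zero]
    intro w hw
    rw [ind_notMem hV (h w hw), smul_zero]
  · rw [Finsupp.notMem_support_iff.1 hz]
    refine Finset.sum_eq_zero fun w hw => ?_
    have hwz : w ≠ z := fun hwz => hz (hwz ▸ hw)
    rw [ind_notMem hV (h w (Finset.mem_erase.2 ⟨hwz, hw⟩)), smul_zero]

/-- the `ℓ_1` norm of a finite combination is at most its norm as a functional -/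
theorem lc_norm (e : K →₀ ℝ) {c : ℝ} (hc : 0 ≤ c)
    (h : ∀ f : C(K, ℝ), |Finsupp.linearCombination ℝ (fun w => f w) e| ≤ c * ‖f‖) :
    ∑ z ∈ e.support, |e z| ≤ c := by
  obtain ⟨f, hf1, hf2⟩ := exists_interp (fun z => (SignType.sign (e z) : ℝ)) (fun z => by
    rcases lt_trichotomy (e z) 0 with h | h | h
    · rw [sign_neg h]; simp
    · rw [h, sign_zero]; simp
    · rw [sign_pos h]; simp) e.support
  have h1 := h f
  have h2 : Finsupp.linearCombination ℝ (fun w => f w) e = ∑ z ∈ e.support, |e z| := by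
    rw [Finsupp.linearCombination_apply, Finsupp.sum]
    refine Finset.sum_congr rfl fun z hz => ?_
    rw [hf2 z hz, smul_eq_mul, self_mul_sign]
  rw [h2] at h1
  exact (le_abs_self _).trans (h1.trans (mul_le_of_le_one_right hc hf1))

/-- **Back step.** -/
theorem back {T : C(K, ℝ) →L[ℝ] C(L, ℝ)} (hT : Pos T) (S : C(L, ℝ) →L[ℝ] C(K, ℝ))
    (hS : ∀ f, S (T f) = f) (F : Finset L) (hF : ∀ y ∈ F, FS fun f => T f y) (x : K) (y0 : L)
    {ε : ℝ} (hε : 0 < ε) :
    ∃ T' : C(K, ℝ) →L[ℝ] C(L, ℝ), Pos T' ∧ ‖T' - T‖ ≤ ε ∧ (∀ z ∈ F, ∀ f, T' f z = T f z) ∧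
      ∃ F' : Finset L, F ⊆ F' ∧ y0 ∈ F' ∧ (∀ y ∈ F', FS fun f => T' f y) ∧
        ∃ lam : L → ℝ, ∀ f : C(K, ℝ), f x = ∑ y ∈ F', lam y * T' f y := by
  classical
  obtain ⟨lam, hlam, hr⟩ := repr ((ContinuousMap.evalCLM ℝ x).comp S)
  have hrep : ∀ f : C(K, ℝ), f x = ∑' y, lam y * T f y := by
    intro f
    have h1 := hr (T f)
    change S (T f) x = _ at h1
    rw [hS] at h1
    exact h1
  obtain ⟨c, hc, B0, hB0F, hsg1, hsg2⟩ := exists_signs lam F
  obtain ⟨Λ, hΛ⟩ : ∃ Λ : ℝ, Λ = ∑' y, |lam y| := ⟨_, rfl⟩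
  have hΛ0 : 0 ≤ Λ := by rw [hΛ]; exact tsum_nonneg fun y => abs_nonneg _
  have hTn : 0 ≤ ‖T‖ := opn T
  obtain ⟨η, hη⟩ : ∃ η : ℝ, η = c * ε / (4 * (‖T‖ + 1)) := ⟨_, rfl⟩
  have hη0 : 0 < η := by rw [hη]; positivity
  have hηT : η * ‖T‖ ≤ c * ε / 4 := by
    rw [hη, div_mul_eq_mul_div, div_le_div_iff₀ (by positivity) (by norm_num)]
    nlinarith [mul_pos hc hε]
  obtain ⟨B, hBsub, hBt⟩ := exists_tail lam (F ∪ B0 ∪ {y0}) hη0
  have hFB : F ⊆ B := fun y hy => hBsub (by simp [hy])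
  have hB0B : B0 ⊆ B := fun y hy => hBsub (by simp [hy])
  have hy0B : y0 ∈ B := hBsub (by simp)
  obtain ⟨ε1, hε1⟩ : ∃ ε1 : ℝ, ε1 = min (ε / 2) (c * ε / (4 * (Λ + 1))) := ⟨_, rfl⟩
  have hε10 : 0 < ε1 := by rw [hε1]; exact lt_min (by linarith) (by positivity)
  have hε1a : ε1 ≤ ε / 2 := by rw [hε1]; exact min_le_left _ _
  have hε1b : Λ * ε1 ≤ c * ε / 4 := by
    have h1 : ε1 ≤ c * ε / (4 * (Λ + 1)) := by rw [hε1]; exact min_le_right _ _
    refine (mul_le_mul_of_nonneg_left h1 hΛ0).trans ?_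
    rw [mul_div_assoc', div_le_div_iff₀ (by positivity) (by norm_num)]
    nlinarith [mul_pos hc hε]
  obtain ⟨T1, hT1, hT1n, hT1le, hT1F, -, hT1B⟩ := fwdAll hT F B hF hε10
  -- the error functional
  have hEfs : FS fun f : C(K, ℝ) => ∑ y ∈ B, lam y * T1 f y + (-1) * f x :=
    (FS.sum B fun y hy => (hT1B y hy).smul _).add ((FS.eval x).smul _)
  obtain ⟨e, he0⟩ := hEfs
  have he : ∀ f : C(K, ℝ), Finsupp.linearCombination ℝ (fun w => f w) e =
      ∑ y ∈ B, lam y * T1 f y + (-1) * f x := fun f => (he0 f).symm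
  have hsumT : ∀ f : C(K, ℝ), Summable fun y => |lam y * T f y| := fun f =>
    summable_mul hlam (M := ‖T f‖) fun y => abs_apply_le (T f) y
  have hE : ∀ f : C(K, ℝ), Finsupp.linearCombination ℝ (fun w => f w) e =
      ∑ y ∈ B, lam y * (T1 f y - T f y) - ∑' y : {y // y ∉ B}, lam y * T f y := by
    intro f
    have h1 := (hsumT f).of_abs.sum_add_tsum_subtype_compl B
    rw [he f, hrep f, ← h1]
    simp only [mul_sub, Finset.sum_sub_distrib]
    ring
  have hEn : ∀ f : C(K, ℝ), |Finsupp.linearCombination ℝ (fun w => f w) e| ≤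
      (c * ε / 2) * ‖f‖ := by
    intro f
    rw [hE]
    have hf0 := norm_nonneg f
    have h1 : |∑ y ∈ B, lam y * (T1 f y - T f y)| ≤ Λ * (ε1 * ‖f‖) := by
      refine (Finset.abs_sum_le_sum_abs _ _).trans ?_
      have h2 : ∀ y ∈ B, |lam y * (T1 f y - T f y)| ≤ |lam y| * (ε1 * ‖f‖) := by
        intro y _
        rw [abs_mul]
        refine mul_le_mul_of_nonneg_left ?_ (abs_nonneg _)
        have h3 := abs_apply_le (T1 f - T f) y
        exact h3.trans (norm_apply_sub hT1n f)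
      refine (Finset.sum_le_sum h2).trans ?_
      rw [← Finset.sum_mul]
      refine mul_le_mul_of_nonneg_right ?_ (mul_nonneg hε10.le hf0)
      rw [hΛ]
      exact hlam.sum_le_tsum B fun y _ => abs_nonneg _
    have h2 : |∑' y : {y // y ∉ B}, lam y * T f y| ≤ η * (‖T‖ * ‖f‖) := by
      have hs1 : Summable fun y : {y // y ∉ B} => |lam y| := hlam.subtype _
      have hs2 : Summable fun y : {y // y ∉ B} => |lam y * T f y| := (hsumT f).subtype _
      have h3 := norm_tsum_le_tsum_norm (f := fun y : {y // y ∉ B} => lam y * T f y)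
        (by simpa only [Real.norm_eq_abs] using hs2)
      simp only [Real.norm_eq_abs] at h3
      refine h3.trans ?_
      have h4 : ∑' y : {y // y ∉ B}, |lam y * T f y| ≤
          ∑' y : {y // y ∉ B}, |lam y| * (‖T‖ * ‖f‖) := by
        refine Summable.tsum_le_tsum (fun y => ?_) hs2 (hs1.mul_right _)
        rw [abs_mul]
        exact mul_le_mul_of_nonneg_left ((abs_apply_le _ _).trans (T.le_opNorm f)) (abs_nonneg _)
      refine h4.trans ?_
      rw [tsum_mul_right]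
      exact mul_le_mul_of_nonneg_right hBt (mul_nonneg hTn hf0)
    have h5 : Λ * (ε1 * ‖f‖) ≤ c * ε / 4 * ‖f‖ := by
      rw [← mul_assoc]
      exact mul_le_mul_of_nonneg_right hε1b hf0
    have h6 : η * (‖T‖ * ‖f‖) ≤ c * ε / 4 * ‖f‖ := by
      rw [← mul_assoc]
      exact mul_le_mul_of_nonneg_right hηT hf0
    refine (abs_sub _ _).trans ?_
    linarith
  have he1 : ∑ z ∈ e.support, |e z| ≤ c * ε / 2 :=
    lc_norm e (by positivity) hEn
  -- the signs
  have hpos : ∀ z, 0 < e z → ∃ y ∈ B0, c ≤ -lam y := by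
    intro z hz
    rcases hsg2 with h | h
    · exfalso
      obtain ⟨V, hV, hzV, hVe⟩ := exists_clopen (e.support.erase z) (Finset.notMem_erase z _)
      have h1 := lc_ind hV hzV hVe
      rw [hE] at h1
      have h2 : ∑ y ∈ B, lam y * (T1 (ind V hV) y - T (ind V hV) y) ≤ 0 := by
        refine Finset.sum_nonpos fun y _ => ?_
        by_cases hyF : y ∈ F
        · rw [hT1F y hyF, sub_self, mul_zero]
        · exact mul_nonpos_of_nonneg_of_nonpos (h y hyF)
            (sub_nonpos.2 (hT1le _ (fun w => ind_nonneg hV w) y))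
      have h3 : 0 ≤ ∑' y : {y // y ∉ B}, lam y * T (ind V hV) y := by
        refine tsum_nonneg fun y => mul_nonneg (h _ fun hyF => y.2 (hFB hyF))
          (hT _ (fun w => ind_nonneg hV w) _)
      linarith
    · exact h
  have hneg : ∀ z, e z < 0 → ∃ y ∈ B0, c ≤ lam y := by
    intro z hz
    rcases hsg1 with h | h
    · exfalso
      obtain ⟨V, hV, hzV, hVe⟩ := exists_clopen (e.support.erase z) (Finset.notMem_erase z _)
      have h1 := lc_ind hV hzV hVe
      rw [hE] at h1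
      have h2 : 0 ≤ ∑ y ∈ B, lam y * (T1 (ind V hV) y - T (ind V hV) y) := by
        refine Finset.sum_nonneg fun y _ => ?_
        by_cases hyF : y ∈ F
        · rw [hT1F y hyF, sub_self, mul_zero]
        · exact mul_nonneg_of_nonpos_of_nonpos (h y hyF)
            (sub_nonpos.2 (hT1le _ (fun w => ind_nonneg hV w) y))
      have h3 : ∑' y : {y // y ∉ B}, lam y * T (ind V hV) y ≤ 0 := by
        refine tsum_nonpos fun y => mul_nonpos_of_nonpos_of_nonneg (h _ fun hyF => y.2 (hFB hyF))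
          (hT _ (fun w => ind_nonneg hV w) _)
      linarith
    · exact h
  have hch : ∀ z ∈ e.support, ∃ y ∈ B0, ∃ t : ℝ, 0 ≤ t ∧ t ≤ |e z| / c ∧ t * lam y = -e z := by
    intro z hz
    rcases lt_or_gt_of_ne (Finsupp.mem_support_iff.1 hz) with h | h
    · obtain ⟨y, hy, hcy⟩ := hneg z h
      have hly : 0 < lam y := lt_of_lt_of_le hc hcy
      refine ⟨y, hy, -e z / lam y, div_nonneg (by linarith) hly.le, ?_, div_mul_cancel₀ _ hly.ne'⟩
      rw [abs_of_neg h]
      exact div_le_div_of_nonneg_left (by linarith) hc hcy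
    · obtain ⟨y, hy, hcy⟩ := hpos z h
      have hly : lam y < 0 := by linarith
      refine ⟨y, hy, e z / -lam y, div_nonneg h.le (by linarith), ?_, ?_⟩
      · rw [abs_of_pos h]
        exact div_le_div_of_nonneg_left h.le hc hcy
      · rw [div_neg, neg_mul, div_mul_cancel₀ _ hly.ne]
  have hLn : Nonempty L := ⟨y0⟩
  choose! yz hyz tz htz0 htz1 htz2 using hch
  -- the neighbourhoods
  have hUy : ∀ y, ∃ U : Set L, IsClopen U ∧ y ∈ U ∧ ∀ w ∈ B.erase y, w ∉ U := fun y =>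
    exists_clopen (B.erase y) (Finset.notMem_erase y B)
  choose U hU1 hU2 hU3 using hUy
  let R : K → C(K, ℝ) →L[ℝ] C(L, ℝ) := fun z => tz z • rk z (U (yz z)) (hU1 (yz z))
  have hRa : ∀ z f y, R z f y = tz z * (f z * ind (U (yz z)) (hU1 (yz z)) y) := fun z f y => rfl
  have hT'a : ∀ f y, (T1 + ∑ z ∈ e.support, R z) f y =
      T1 f y + ∑ z ∈ e.support, tz z * (f z * ind (U (yz z)) (hU1 (yz z)) y) := by
    intro f y
    rw [add_apply, ContinuousMap.add_apply, sum_apply, ContinuousMap.sum_apply]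
    rfl
  refine ⟨T1 + ∑ z ∈ e.support, R z, ?_, ?_, ?_, B, hFB, hy0B, ?_, lam, ?_⟩
  · intro f hf y
    rw [hT'a]
    refine add_nonneg (hT1 f hf y) (Finset.sum_nonneg fun z hz => ?_)
    exact mul_nonneg (htz0 z hz) (mul_nonneg (hf z) (ind_nonneg _ _))
  · have h1 : ‖T1 + ∑ z ∈ e.support, R z - T1‖ ≤ ∑ z ∈ e.support, |e z| / c := by
      refine norm_add_sum _ _ _ _ fun z hz => ?_
      exact (rk_norm z _ (hU1 (yz z)) (htz0 z hz)).trans (htz1 z hz)
    have h2 : ∑ z ∈ e.support, |e z| / c ≤ ε / 2 := by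
      rw [← Finset.sum_div, div_le_iff₀ hc]
      linarith
    exact (norm_tri (h1.trans h2) (hT1n.trans hε1a)).trans (by linarith)
  · intro y hy f
    rw [hT'a, hT1F y hy]
    rw [Finset.sum_eq_zero, add_zero]
    intro z hz
    have hne : y ≠ yz z := fun h => hB0F _ (hyz z hz) (h ▸ hy)
    rw [ind_notMem _ (hU3 (yz z) y (Finset.mem_erase.2 ⟨hne, hFB hy⟩)), mul_zero, mul_zero]
  · intro y hy
    refine ((hT1B y hy).add (FS.sum e.support (φ := fun z f =>
      (tz z * ind (U (yz z)) (hU1 (yz z)) y) * f z) fun z _ => (FS.eval z).smul _)).congr fun f => ?_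
    rw [hT'a]
    congr 1
    exact Finset.sum_congr rfl fun z _ => by ring
  · intro f
    have h1 : ∀ z ∈ e.support, ∑ y ∈ B, lam y * (tz z * (f z * ind (U (yz z)) (hU1 (yz z)) y)) =
        -(e z * f z) := by
      intro z hz
      have hyB : yz z ∈ B := hB0B (hyz z hz)
      rw [← Finset.add_sum_erase _ _ hyB, ind_mem _ (hU2 (yz z)), Finset.sum_eq_zero, add_zero]
      · have := htz2 z hz
        rw [mul_one, ← mul_assoc, mul_comm (lam _), this]
        ring
      · intro y hy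
        rw [ind_notMem _ (hU3 (yz z) y hy), mul_zero, mul_zero, mul_zero]
    have h2 : ∑ y ∈ B, lam y * (T1 + ∑ z ∈ e.support, R z) f y =
        ∑ y ∈ B, lam y * T1 f y + ∑ z ∈ e.support, -(e z * f z) := by
      rw [← Finset.sum_congr rfl h1, Finset.sum_comm, ← Finset.sum_add_distrib]
      refine Finset.sum_congr rfl fun y _ => ?_
      rw [hT'a, mul_add, Finset.mul_sum]
    have h3 := he f
    rw [Finsupp.linearCombination_apply, Finsupp.sum] at h3
    simp only [smul_eq_mul] at h3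
    rw [h2, Finset.sum_neg_distrib, h3]
    ring

end Pool.Agent.K1H32.CP
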