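import Pool.Agent.K1H32.CP.Rep

/-!
# Deleting the infinite part of a row of a positive operator
-/

set_option autoImplicit false
set_option linter.unusedSectionVars false

open Filter Topology Set

namespace Pool.Agent.K1H32.CP

universe u v

variable {K : Type u} [TopologicalSpace K] [CompactSpace K] [T2Space K] [Countable K]
variable {L : Type v} [TopologicalSpace L] [CompactSpace L] [T2Space L] [Countable L]

/-- positivity of an operator -/
def Pos (T : C(K, ℝ) →L[ℝ] C(L, ℝ)) : Prop := ∀ f : C(K, ℝ), (∀ x, 0 ≤ f x) → ∀ y, 0 ≤ T f y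

/-- a finite combination of point evaluations -/
def FS (φ : C(K, ℝ) → ℝ) : Prop :=
  ∃ e : K →₀ ℝ, ∀ f : C(K, ℝ), φ f = Finsupp.linearCombination ℝ (fun z => f z) e

theorem FS.add {φ ψ : C(K, ℝ) → ℝ} (h : FS φ) (k : FS ψ) : FS fun f => φ f + ψ f := by
  obtain ⟨e, he⟩ := h
  obtain ⟨d, hd⟩ := k
  exact ⟨e + d, fun f => by rw [map_add, ← he, ← hd]⟩

theorem FS.smul {φ : C(K, ℝ) → ℝ} (h : FS φ) (c : ℝ) : FS fun f => c * φ f := by
  obtain ⟨e, he⟩ := h
  exact ⟨c • e, fun f => by rw [map_smul, ← he, smul_eq_mul]⟩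

theorem FS.eval (x : K) : FS fun f : C(K, ℝ) => f x :=
  ⟨Finsupp.single x 1, fun f => by simp⟩

theorem FS.zero : FS fun _ : C(K, ℝ) => (0 : ℝ) := ⟨0, fun f => by simp⟩

theorem FS.sum {ι : Type*} (s : Finset ι) {φ : ι → C(K, ℝ) → ℝ} (h : ∀ i ∈ s, FS (φ i)) :
    FS fun f => ∑ i ∈ s, φ i f := by
  classical
  induction s using Finset.induction_on with
  | empty => simpa using FS.zero
  | insert i s hi ih =>
    have h1 : (fun f => ∑ j ∈ insert i s, φ j f) = fun f => φ i f + ∑ j ∈ s, φ j f := by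
      funext f
      rw [Finset.sum_insert hi]
    rw [h1]
    exact (h i (Finset.mem_insert_self i s)).add (ih fun j hj => h j (Finset.mem_insert_of_mem hj))

theorem FS.congr {φ ψ : C(K, ℝ) → ℝ} (h : FS φ) (k : ∀ f, ψ f = φ f) : FS ψ := by
  obtain ⟨e, he⟩ := h
  exact ⟨e, fun f => by rw [k, he]⟩

/-- the tail of an absolutely summable family -/
theorem exists_tail {X : Type*} (a : X → ℝ) (F : Finset X)
    {ε : ℝ} (hε : 0 < ε) :
    ∃ A : Finset X, F ⊆ A ∧ ∑' x : {x // x ∉ A}, |a x| ≤ ε := by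
  classical
  have h := tendsto_tsum_compl_atTop_zero (fun x => |a x|)
  have h1 : ∀ᶠ s : Finset X in atTop, ∑' x : {x // x ∉ s}, |a x| < ε :=
    (tendsto_order.1 h).2 ε hε
  obtain ⟨A, hA⟩ := (h1.and (eventually_ge_atTop F)).exists
  exact ⟨A, hA.2, hA.1.le⟩

theorem tsum_split {X : Type*} {g : X → ℝ} (hg : Summable fun x => |g x|) (A : Finset X) :
    |∑' x, g x - ∑ x ∈ A, g x| ≤ ∑' x : {x // x ∉ A}, |g x| := by
  have h1 : Summable g := hg.of_abs
  have h2 := h1.sum_add_tsum_subtype_compl A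
  rw [← h2, add_sub_cancel_left]
  have h3 : Summable fun x : {x // x ∉ A} => |g x| := hg.subtype _
  have h4 := norm_tsum_le_tsum_norm (f := fun x : {x // x ∉ A} => g x)
    (by simpa [Real.norm_eq_abs] using h3)
  simpa [Real.norm_eq_abs] using h4

theorem summable_mul {X : Type*} {a g : X → ℝ} (ha : Summable fun x => |a x|) {M : ℝ}
    (hg : ∀ x, |g x| ≤ M) : Summable fun x => |a x * g x| := by
  refine Summable.of_nonneg_of_le (fun x => abs_nonneg _) (fun x => ?_) (ha.mul_right M)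
  rw [abs_mul]
  exact mul_le_mul_of_nonneg_left (hg x) (abs_nonneg _)

theorem abs_apply_le (f : C(K, ℝ)) (x : K) : |f x| ≤ ‖f‖ := f.norm_coe_le_norm x

/-- the coefficients of a positive functional -/
theorem repr_pos (φ : C(K, ℝ) →L[ℝ] ℝ) (hφ : ∀ f : C(K, ℝ), (∀ x, 0 ≤ f x) → 0 ≤ φ f) :
    ∃ a : K → ℝ, (∀ x, 0 ≤ a x) ∧ Summable (fun x => |a x|) ∧
      ∀ f : C(K, ℝ), φ f = ∑' x, a x * f x := by
  classical
  obtain ⟨a, ha, hr⟩ := repr φ
  refine ⟨a, fun x => ?_, ha, hr⟩
  by_contra hneg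
  push Not at hneg
  obtain ⟨A, hA, hA2⟩ := exists_tail a {x} (ε := -a x / 2) (by linarith)
  have hxA : x ∈ A := hA (Finset.mem_singleton_self x)
  obtain ⟨V, hV, hxV, hVA⟩ := exists_clopen (A.erase x) (Finset.notMem_erase x A)
  have h1 : ∑ z ∈ A, a z * ind V hV z = a x := by
    rw [← Finset.add_sum_erase A _ hxA, ind_mem hV hxV, mul_one, Finset.sum_eq_zero, add_zero]
    intro z hz
    rw [ind_notMem hV (hVA z hz), mul_zero]
  have h2 := tsum_split (summable_mul (a := a) (g := fun z => ind V hV z) (M := 1) ha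
    (fun z => by rw [abs_of_nonneg (ind_nonneg hV z)]; exact ind_le_one hV z)) A
  rw [h1, ← hr] at h2
  have h3 : ∑' z : {z // z ∉ A}, |a z * ind V hV z| ≤ ∑' z : {z // z ∉ A}, |a z| := by
    refine Summable.tsum_le_tsum (fun z => ?_) ?_ ?_
    · rw [abs_mul, abs_of_nonneg (ind_nonneg hV _)]
      exact mul_le_of_le_one_right (abs_nonneg _) (ind_le_one hV _)
    · exact (summable_mul (a := a) (g := fun z => ind V hV z) (M := 1) ha
        (fun z => by rw [abs_of_nonneg (ind_nonneg hV z)]; exact ind_le_one hV z)).subtype _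
    · exact ha.subtype _
  have h4 : 0 ≤ φ (ind V hV) := hφ _ fun z => ind_nonneg hV z
  have h5 := (abs_le.1 (h2.trans (h3.trans hA2))).2
  linarith

/-- the functional `f ↦ T f y` -/
noncomputable def row (T : C(K, ℝ) →L[ℝ] C(L, ℝ)) (y : L) : C(K, ℝ) →L[ℝ] ℝ :=
  (ContinuousMap.evalCLM ℝ y).comp T

theorem row_apply (T : C(K, ℝ) →L[ℝ] C(L, ℝ)) (y : L) (f : C(K, ℝ)) : row T y f = T f y := rfl

theorem Pos.mono {T : C(K, ℝ) →L[ℝ] C(L, ℝ)} (hT : Pos T) {f g : C(K, ℝ)} (h : ∀ x, f x ≤ g x)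
    (y : L) : T f y ≤ T g y := by
  have h1 := hT (g - f) (fun x => by simpa using h x) y
  rw [map_sub, ContinuousMap.sub_apply] at h1
  linarith

theorem Pos.abs_le {T : C(K, ℝ) →L[ℝ] C(L, ℝ)} (hT : Pos T) {f g : C(K, ℝ)}
    (h : ∀ x, |f x| ≤ g x) (y : L) : |T f y| ≤ T g y := by
  rw [_root_.abs_le]
  constructor
  · have := hT.mono (f := -g) (g := f) (fun x => by
      have := (_root_.abs_le.1 (h x)).1
      simpa using this) y
    simpa using this
  · exact hT.mono (fun x => (_root_.abs_le.1 (h x)).2) y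

/-- multiplication by a clopen indicator -/
noncomputable def mulI {X : Type u} [TopologicalSpace X] [CompactSpace X] (d : C(X, ℝ)) :
    C(X, ℝ) →L[ℝ] C(X, ℝ) := ContinuousLinearMap.mul ℝ C(X, ℝ) d

theorem mulI_apply {X : Type u} [TopologicalSpace X] [CompactSpace X] (d f : C(X, ℝ)) (x : X) :
    mulI d f x = d x * f x := rfl

theorem norm_term {T : C(K, ℝ) →L[ℝ] C(L, ℝ)} (hT : Pos T) {U : Set L} (hU : IsClopen U)
    {d : C(K, ℝ)} (hd : ∀ x, 0 ≤ d x) {s : ℝ} (hs : 0 ≤ s) (h : ∀ y ∈ U, T d y ≤ s) :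
    ‖(mulI (ind U hU)).comp (T.comp (mulI d))‖ ≤ s := by
  refine ContinuousLinearMap.opNorm_le_bound _ hs fun f => ?_
  rw [ContinuousMap.norm_le _ (mul_nonneg hs (norm_nonneg _))]
  intro y
  change ‖ind U hU y * T (mulI d f) y‖ ≤ s * ‖f‖
  by_cases hy : y ∈ U
  · rw [ind_mem hU hy, one_mul, Real.norm_eq_abs]
    have h1 : |T (mulI d f) y| ≤ T (‖f‖ • d) y := by
      refine hT.abs_le (fun x => ?_) y
      rw [mulI_apply, abs_mul, abs_of_nonneg (hd x), ContinuousMap.smul_apply, smul_eq_mul,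
        mul_comm]
      exact mul_le_mul_of_nonneg_right (abs_apply_le f x) (hd x)
    rw [map_smul, ContinuousMap.smul_apply, smul_eq_mul] at h1
    refine h1.trans ?_
    rw [mul_comm]
    exact mul_le_mul_of_nonneg_right (h y hy) (norm_nonneg _)
  · rw [ind_notMem hU hy, zero_mul, norm_zero]
    exact mul_nonneg hs (norm_nonneg _)

/-- summation of operators -/
theorem opsum {E F : Type*} [NormedAddCommGroup E] [NormedSpace ℝ E] [NormedAddCommGroup F]
    [NormedSpace ℝ F] [CompleteSpace F] (t : ℕ → E →L[ℝ] F) (s : ℕ → ℝ) (hs : Summable s)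
    (h : ∀ n, ‖t n‖ ≤ s n) :
    ∃ S : E →L[ℝ] F, ‖S‖ ≤ ∑' n, s n ∧ ∀ f, HasSum (fun n => t n f) (S f) := by
  have ht : Summable t := Summable.of_norm_bounded hs h
  refine ⟨∑' n, t n, tsum_of_norm_bounded hs.hasSum h, fun f => ?_⟩
  exact (ContinuousLinearMap.apply ℝ F f).hasSum ht.hasSum

theorem norm_sub_self {E F : Type*} [NormedAddCommGroup E] [NormedSpace ℝ E]
    [NormedAddCommGroup F] [NormedSpace ℝ F] (T S : E →L[ℝ] F) {c : ℝ} (h : ‖S‖ ≤ c) :
    ‖T - S - T‖ ≤ c := by
  have h1 : T - S - T = -S := by abel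
  rw [h1, norm_neg]
  exact h

/-- the increments of an increasing sequence of clopen sets -/
noncomputable def dW {W : ℕ → Set K} (hW : ∀ n, IsClopen (W n)) (n : ℕ) : C(K, ℝ) :=
  ind (W (n + 1)) (hW _) - ind (W n) (hW _)

theorem dW_nonneg {W : ℕ → Set K} (hW : ∀ n, IsClopen (W n)) (hm : Monotone W) (n : ℕ) (x : K) :
    0 ≤ dW hW n x := by
  change 0 ≤ ind (W (n + 1)) (hW _) x - ind (W n) (hW _) x
  by_cases hx : x ∈ W n
  · rw [ind_mem _ hx, ind_mem _ (hm (Nat.le_succ n) hx)]; norm_num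
  · rw [ind_notMem _ hx, sub_zero]; exact ind_nonneg _ _

theorem sum_dW {W : ℕ → Set K} (hW : ∀ n, IsClopen (W n)) (h0 : W 0 = ∅) (m : ℕ) :
    ∑ n ∈ Finset.range m, dW hW n = ind (W m) (hW m) := by
  unfold dW
  rw [Finset.sum_range_sub (fun n => ind (W n) (hW n))]
  have : ind (W 0) (hW 0) = 0 := by
    ext x
    rw [ind_notMem _ (by rw [h0]; exact notMem_empty x)]
    rfl
  rw [this, sub_zero]

/-- **Forward step.** The infinite part of one row of a positive operator can be deleted by a small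
perturbation which decreases the operator and does not change finitely many given other rows. -/
theorem fwd {T : C(K, ℝ) →L[ℝ] C(L, ℝ)} (hT : Pos T) (F : Finset L) {y : L} (hy : y ∉ F)
    {ε : ℝ} (hε : 0 < ε) :
    ∃ T' : C(K, ℝ) →L[ℝ] C(L, ℝ), Pos T' ∧ ‖T' - T‖ ≤ ε ∧
      (∀ f : C(K, ℝ), (∀ x, 0 ≤ f x) → ∀ z, T' f z ≤ T f z) ∧
      (∀ z ∈ F, ∀ f, T' f z = T f z) ∧ FS fun f => T' f y := by
  classical
  obtain ⟨a, ha0, ha, har⟩ := repr_pos (row T y) fun f hf => hT f hf y
  obtain ⟨A, -, hA⟩ := exists_tail a ∅ (ε := ε / 2) (by linarith)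
  obtain ⟨W, hW0, hWm, hW, hWA, hWc⟩ := exists_exhaustion A
  have hsm : ∀ m, Summable fun x => |a x * ind (W m) (hW m) x| := fun m =>
    summable_mul ha (M := 1) (fun x => by
      rw [abs_of_nonneg (ind_nonneg _ x)]; exact ind_le_one _ x)
  -- the masses of the increments
  have hmass : ∀ m, row T y (ind (W m) (hW m)) ≤ ε / 2 := by
    intro m
    have h1 := tsum_split (hsm m) A
    have h2 : ∑ x ∈ A, a x * ind (W m) (hW m) x = 0 :=
      Finset.sum_eq_zero fun x hx => by rw [ind_notMem _ (hWA m x hx), mul_zero]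
    rw [h2, sub_zero, ← har] at h1
    have h3 : ∑' z : {z // z ∉ A}, |a z * ind (W m) (hW m) z| ≤ ∑' z : {z // z ∉ A}, |a z| := by
      refine Summable.tsum_le_tsum (fun z => ?_) ((hsm m).subtype _) (ha.subtype _)
      rw [abs_mul, abs_of_nonneg (ind_nonneg _ _)]
      exact mul_le_of_le_one_right (abs_nonneg _) (ind_le_one _ _)
    exact (le_abs_self _).trans (h1.trans (h3.trans hA))
  obtain ⟨s, hsdef⟩ : ∃ s : ℕ → ℝ, s = fun n => row T y (dW hW n) + ε / 4 / 2 ^ n := ⟨_, rfl⟩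
  have hs0 : ∀ n, 0 ≤ row T y (dW hW n) := fun n => hT _ (dW_nonneg hW hWm n) y
  have hspos : ∀ n, 0 ≤ s n := fun n => by
    rw [hsdef]
    exact add_nonneg (hs0 n) (by positivity)
  have hpart : ∀ m, ∑ n ∈ Finset.range m, row T y (dW hW n) ≤ ε / 2 := by
    intro m
    rw [← map_sum, sum_dW hW hW0]
    exact hmass m
  have hsum1 : Summable fun n => row T y (dW hW n) := summable_of_sum_range_le hs0 hpart
  have hle1 : ∑' n, row T y (dW hW n) ≤ ε / 2 := Real.tsum_le_of_sum_range_le hs0 hpart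
  have hgeo : HasSum (fun n : ℕ => ε / 4 / 2 ^ n) (ε / 2) := by
    have h := hasSum_geometric_two' (ε / 2)
    have e1 : ε / 2 / 2 = ε / 4 := by ring
    rw [e1] at h
    exact h
  have hsums : Summable s := by
    rw [hsdef]
    exact hsum1.add hgeo.summable
  have htots : ∑' n, s n ≤ ε := by
    rw [hsdef, hsum1.tsum_add hgeo.summable, hgeo.tsum_eq]
    linarith
  -- the neighbourhoods
  have hU : ∀ n, ∃ U : Set L, IsClopen U ∧ y ∈ U ∧ U ⊆ {z | T (dW hW n) z < s n} ∧
      ∀ z ∈ F, z ∉ U := by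
    intro n
    refine exists_clopen' F hy (isOpen_lt (T (dW hW n)).continuous continuous_const) ?_
    change row T y (dW hW n) < s n
    have : 0 < ε / 4 / 2 ^ n := by positivity
    rw [hsdef]
    exact lt_add_of_pos_right _ this
  choose U hU1 hU2 hU3 hU4 using hU
  obtain ⟨term, htd⟩ : ∃ term : ℕ → C(K, ℝ) →L[ℝ] C(L, ℝ), ∀ n, term n =
    (mulI (ind (U n) (hU1 n))).comp (T.comp (mulI (dW hW n))) := ⟨_, fun _ => rfl⟩
  have hterm : ∀ n, ‖term n‖ ≤ s n := fun n => by
    rw [htd]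
    exact norm_term hT (hU1 n) (dW_nonneg hW hWm n) (hspos n) fun z hz => (hU3 n hz).le
  obtain ⟨S, hSn, hSs⟩ := opsum term s hsums hterm
  have hev : ∀ (f : C(K, ℝ)) (z : L), HasSum (fun n => term n f z) (S f z) :=
    fun f z => (ContinuousMap.evalCLM ℝ z).hasSum (hSs f)
  have hta : ∀ n f z, term n f z = ind (U n) (hU1 n) z * T (mulI (dW hW n) f) z :=
    fun n f z => by rw [htd]; rfl
  have hmulnn : ∀ n (f : C(K, ℝ)), (∀ x, 0 ≤ f x) → ∀ x, 0 ≤ mulI (dW hW n) f x :=
    fun n f hf x => mul_nonneg (dW_nonneg hW hWm n x) (hf x)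
  have hSnn : ∀ f : C(K, ℝ), (∀ x, 0 ≤ f x) → ∀ z, 0 ≤ S f z := by
    intro f hf z
    refine (hev f z).nonneg fun n => ?_
    rw [hta]
    exact mul_nonneg (ind_nonneg _ _) (hT _ (hmulnn n f hf) z)
  have hsumT : ∀ (m : ℕ) (f : C(K, ℝ)) (z : L),
      ∑ n ∈ Finset.range m, T (mulI (dW hW n) f) z = T (mulI (ind (W m) (hW m)) f) z := by
    intro m f z
    have h1 : mulI (ind (W m) (hW m)) f = ∑ n ∈ Finset.range m, mulI (dW hW n) f := by
      rw [← sum_dW hW hW0]
      change (∑ n ∈ Finset.range m, dW hW n) * f = ∑ n ∈ Finset.range m, dW hW n * f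
      rw [Finset.sum_mul]
    rw [h1, map_sum, ContinuousMap.sum_apply]
  have hSle : ∀ f : C(K, ℝ), (∀ x, 0 ≤ f x) → ∀ z, S f z ≤ T f z := by
    intro f hf z
    refine le_of_tendsto (hev f z).tendsto_sum_nat (Eventually.of_forall fun m => ?_)
    have h1 : ∑ n ∈ Finset.range m, term n f z ≤ ∑ n ∈ Finset.range m, T (mulI (dW hW n) f) z := by
      refine Finset.sum_le_sum fun n _ => ?_
      rw [hta]
      exact mul_le_of_le_one_left (hT _ (hmulnn n f hf) z) (ind_le_one _ _)
    refine h1.trans ?_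
    rw [hsumT]
    refine hT.mono (fun x => ?_) z
    rw [mulI_apply]
    exact mul_le_of_le_one_left (hf x) (ind_le_one _ _)
  refine ⟨T - S, ?_, ?_, ?_, ?_, ?_⟩
  · intro f hf z
    have := hSle f hf z
    rw [sub_apply, ContinuousMap.sub_apply]
    linarith
  · exact norm_sub_self T S (hSn.trans htots)
  · intro f hf z
    have := hSnn f hf z
    rw [sub_apply, ContinuousMap.sub_apply]
    linarith
  · intro z hz f
    have h1 : S f z = 0 := by
      refine (hev f z).unique ?_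
      have : (fun n => term n f z) = fun _ => 0 := by
        funext n
        rw [hta, ind_notMem _ (hU4 n z hz), zero_mul]
      rw [this]
      exact hasSum_zero
    rw [sub_apply, ContinuousMap.sub_apply, h1, sub_zero]
  · -- the row at `y`
    have hfs : FS fun f : C(K, ℝ) => ∑ x ∈ A, a x * f x := FS.sum A fun x _ => (FS.eval x).smul _
    refine hfs.congr fun f => ?_
    have h1 : Tendsto (fun m => ∑ n ∈ Finset.range m, term n f y) atTop
        (𝓝 (S f y)) := (hev f y).tendsto_sum_nat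
    have h2 : (fun m => ∑ n ∈ Finset.range m, term n f y) =
        fun m => ∑' x, a x * (ind (W m) (hW m) x * f x) := by
      funext m
      have h3 : ∑ n ∈ Finset.range m, term n f y = ∑ n ∈ Finset.range m, T (mulI (dW hW n) f) y := by
        refine Finset.sum_congr rfl fun n _ => ?_
        rw [hta, ind_mem _ (hU2 n), one_mul]
      rw [h3, hsumT]
      exact har _
    have h4 : Tendsto (fun m => ∑' x, a x * (ind (W m) (hW m) x * f x)) atTop
        (𝓝 (∑' x, a x * ((if x ∈ A then 0 else 1) * f x))) := by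
      refine tendsto_tsum_of_dominated_convergence (bound := fun x => |a x| * ‖f‖)
        (ha.mul_right _) ?_ ?_
      · intro x
        refine Tendsto.mul tendsto_const_nhds (Tendsto.mul ?_ tendsto_const_nhds)
        by_cases hx : x ∈ A
        · rw [if_pos hx]
          refine tendsto_const_nhds.congr fun m => ?_
          rw [ind_notMem _ (hWA m x hx)]
        · rw [if_neg hx]
          obtain ⟨n, hn⟩ := hWc x hx
          refine tendsto_const_nhds.congr' ?_
          filter_upwards [eventually_ge_atTop n] with m hm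
          rw [ind_mem _ (hWm hm hn)]
      · refine Eventually.of_forall fun m x => ?_
        rw [norm_mul, Real.norm_eq_abs, norm_mul]
        refine mul_le_mul_of_nonneg_left ?_ (abs_nonneg _)
        refine (mul_le_mul (?_ : ‖ind (W m) (hW m) x‖ ≤ 1) (f.norm_coe_le_norm x) (norm_nonneg _)
          zero_le_one).trans (by rw [one_mul])
        rw [Real.norm_eq_abs, abs_of_nonneg (ind_nonneg _ x)]
        exact ind_le_one _ x
    rw [h2] at h1
    have h5 := tendsto_nhds_unique h1 h4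
    rw [sub_apply, ContinuousMap.sub_apply, h5]
    have h6 : T f y = ∑' x, a x * f x := har f
    have hs1 : Summable fun x => a x * f x :=
      (summable_mul ha (M := ‖f‖) fun x => abs_apply_le f x).of_abs
    have hs2 : Summable fun x => a x * ((if x ∈ A then 0 else 1) * f x) := by
      refine (summable_mul ha (M := ‖f‖) fun x => ?_).of_abs
      split_ifs
      · rw [zero_mul, abs_zero]; exact norm_nonneg _
      · rw [one_mul]; exact abs_apply_le f x
    rw [h6, ← hs1.tsum_sub hs2]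
    rw [tsum_eq_sum (s := A)]
    · refine Finset.sum_congr rfl fun x hx => ?_
      rw [if_pos hx]; ring
    · intro x hx
      rw [if_neg hx]; ring

end Pool.Agent.K1H32.CP
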