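import Pool.Agent.K1H32.CP.Back

/-!
# Perturbation of positive isomorphisms to positive pointwise homeomorphisms
-/

set_option autoImplicit false
set_option linter.unusedSectionVars false

open Filter Topology Set

namespace Pool.Agent.K1H32.CP

universe u v

/-- dependent choice -/
theorem exists_seq {α : Type*} (P : ℕ → α → Prop) (Q : ℕ → α → α → Prop) (h0 : ∃ a, P 0 a)
    (h : ∀ n a, P n a → ∃ b, P (n + 1) b ∧ Q n a b) :
    ∃ w : ℕ → α, ∀ n, P n (w n) ∧ Q n (w n) (w (n + 1)) := by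
  obtain ⟨a0, ha0⟩ := h0
  choose g hg1 hg2 using h
  let w : (n : ℕ) → {a // P n a} := fun n =>
    Nat.rec ⟨a0, ha0⟩ (fun n a => ⟨g n a.1 a.2, hg1 n a.1 a.2⟩) n
  exact ⟨fun n => (w n).1, fun n => ⟨(w n).2, hg2 n (w n).1 (w n).2⟩⟩

section Gen

variable {E F : Type*} [NormedAddCommGroup E] [NormedSpace ℝ E]
    [NormedAddCommGroup F] [NormedSpace ℝ F]

theorem lim_op [CompleteSpace F] (T : ℕ → E →L[ℝ] F) (A : E →L[ℝ] F) {δ : ℝ}
    (hd : ∀ n, ‖T (n + 1) - T n‖ ≤ δ / 2 / 2 ^ n) (hA : ∀ n, ‖T n - A‖ ≤ δ) :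
    ∃ S : E →L[ℝ] F, ‖S - A‖ ≤ δ ∧ ∀ f, Tendsto (fun n => T n f) atTop (𝓝 (S f)) := by
  have hc : CauchySeq T := cauchySeq_of_le_geometric_two (C := δ) fun n => by
    rw [dist_comm, dist_eq_norm]
    exact hd n
  obtain ⟨S, hS⟩ := cauchySeq_tendsto_of_complete hc
  refine ⟨S, ?_, fun f => ?_⟩
  · exact le_of_tendsto ((hS.sub_const A).norm) (Eventually.of_forall hA)
  · exact ((ContinuousLinearMap.apply ℝ F f).continuous.tendsto S).comp hS

theorem inv_ball [CompleteSpace E] (e : E ≃L[ℝ] F) : ∃ r : ℝ, 0 < r ∧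
    ∀ T : E →L[ℝ] F, ‖T - e‖ < r → ∃ e' : E ≃L[ℝ] F, (e' : E →L[ℝ] F) = T := by
  obtain ⟨r, hr, h⟩ := Metric.mem_nhds_iff.1 (ContinuousLinearEquiv.nhds e)
  refine ⟨r, hr, fun T hT => ?_⟩
  obtain ⟨e', he'⟩ := h (show T ∈ Metric.ball (e : E →L[ℝ] F) r by
    rw [Metric.mem_ball, dist_eq_norm]; exact hT)
  exact ⟨e', he'⟩

end Gen

variable {K : Type u} [TopologicalSpace K] [CompactSpace K] [T2Space K] [Countable K]
variable {L : Type v} [TopologicalSpace L] [CompactSpace L] [T2Space L] [Countable L]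

/-- the topology of pointwise convergence -/
@[reducible] def cpTop (X : Type u) [TopologicalSpace X] : TopologicalSpace C(X, ℝ) :=
  TopologicalSpace.induced (fun (f : C(X, ℝ)) (x : X) => f x) Pi.topologicalSpace

theorem cp_continuous (T : C(K, ℝ) → C(L, ℝ)) (h : ∀ y, FS fun f => T f y) :
    @Continuous _ _ (cpTop K) (cpTop L) T := by
  let _ : TopologicalSpace C(K, ℝ) := cpTop K
  refine continuous_induced_rng.2 (continuous_pi fun y => ?_)
  obtain ⟨e, he⟩ := h y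
  have h1 : (fun f : C(K, ℝ) => T f y) = fun f => ∑ z ∈ e.support, e z * f z := by
    funext f
    have h2 : T f y = Finsupp.linearCombination ℝ (fun z => f z) e := he f
    rw [h2, Finsupp.linearCombination_apply, Finsupp.sum]
    rfl
  change Continuous fun f : C(K, ℝ) => T f y
  rw [h1]
  refine continuous_finsetSum _ fun z _ => Continuous.mul continuous_const ?_
  exact (continuous_apply z).comp continuous_induced_dom

theorem approx_aux [Nonempty K] [Nonempty L] (e : C(K, ℝ) ≃L[ℝ] C(L, ℝ))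
    (he : Pos (e : C(K, ℝ) →L[ℝ] C(L, ℝ))) {ε : ℝ} (hε : 0 < ε) :
    ∃ e' : C(K, ℝ) ≃L[ℝ] C(L, ℝ), Pos (e' : C(K, ℝ) →L[ℝ] C(L, ℝ)) ∧
      ‖(e' : C(K, ℝ) →L[ℝ] C(L, ℝ)) - e‖ ≤ ε ∧ (∀ y, FS fun f => e' f y) ∧
      ∀ x, FS fun g : C(L, ℝ) => e'.symm g x := by
  classical
  obtain ⟨r, hr, hball⟩ := inv_ball e
  obtain ⟨δ, hδ0, hδr, hδε⟩ : ∃ δ : ℝ, 0 < δ ∧ δ < r ∧ δ ≤ ε :=
    ⟨min (r / 2) ε, lt_min (by linarith) hε, lt_of_le_of_lt (min_le_left _ _) (by linarith),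
      min_le_right _ _⟩
  obtain ⟨xn, hxn⟩ := exists_surjective_nat K
  obtain ⟨yn, hyn⟩ := exists_surjective_nat L
  let P : ℕ → (C(K, ℝ) →L[ℝ] C(L, ℝ)) × Finset L → Prop := fun n s =>
    Pos s.1 ∧ ‖s.1 - e‖ ≤ δ - δ / 2 ^ n ∧ ∀ y ∈ s.2, FS fun f => s.1 f y
  let Q : ℕ → (C(K, ℝ) →L[ℝ] C(L, ℝ)) × Finset L → (C(K, ℝ) →L[ℝ] C(L, ℝ)) × Finset L → Prop :=
    fun n s s' => ‖s'.1 - s.1‖ ≤ δ / 2 / 2 ^ n ∧ (∀ z ∈ s.2, ∀ f, s'.1 f z = s.1 f z) ∧
      s.2 ⊆ s'.2 ∧ yn n ∈ s'.2 ∧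
      ∃ lam : L → ℝ, ∀ f : C(K, ℝ), f (xn n) = ∑ y ∈ s'.2, lam y * s'.1 f y
  have h0 : ∃ a, P 0 a := ⟨(e, ∅), he, norm_self _ (by norm_num), by simp⟩
  have hstep : ∀ n a, P n a → ∃ b, P (n + 1) b ∧ Q n a b := by
    rintro n ⟨T, F⟩ ⟨hT, hTe, hF⟩
    have h2n : (0 : ℝ) < δ / 2 ^ n := by positivity
    obtain ⟨e1, he1⟩ := hball T (lt_of_le_of_lt hTe (by linarith))
    have hS : ∀ f, (e1.symm : C(L, ℝ) →L[ℝ] C(K, ℝ)) (T f) = f := by
      intro f
      rw [← he1]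
      exact e1.symm_apply_apply f
    obtain ⟨T', k1, k2, k3, F', k4, k5, k6, k7⟩ := back hT (e1.symm : C(L, ℝ) →L[ℝ] C(K, ℝ)) hS F
      hF (xn n) (yn n) (ε := δ / 2 / 2 ^ n) (by positivity)
    refine ⟨(T', F'), ⟨k1, ?_, k6⟩, k2, k3, k4, k5, k7⟩
    refine (norm_tri k2 hTe).trans (le_of_eq ?_)
    rw [pow_succ]
    field_simp
    ring
  obtain ⟨w, hw⟩ := exists_seq P Q h0 hstep
  obtain ⟨S, hS1, hS2⟩ := lim_op (fun n => (w n).1) (e : C(K, ℝ) →L[ℝ] C(L, ℝ)) (δ := δ)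
    (fun n => (hw n).2.1) (fun n => ((hw n).1.2.1).trans (by
      have : (0 : ℝ) < δ / 2 ^ n := by positivity
      linarith))
  obtain ⟨e', he'⟩ := hball S (lt_of_le_of_lt hS1 hδr)
  have hev : ∀ f y, Tendsto (fun n => (w n).1 f y) atTop (𝓝 (S f y)) := fun f y =>
    ((ContinuousMap.evalCLM ℝ y).continuous.tendsto _).comp (hS2 f)
  have hconst : ∀ n, ∀ y ∈ (w n).2, ∀ m, n ≤ m → (y ∈ (w m).2 ∧
      ∀ f, (w m).1 f y = (w n).1 f y) := by
    intro n y hy m hm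
    induction m, hm using Nat.le_induction with
    | base => exact ⟨hy, fun f => rfl⟩
    | succ m hm ih =>
      exact ⟨(hw m).2.2.2.1 ih.1, fun f => by rw [(hw m).2.2.1 y ih.1, ih.2]⟩
  have hfin : ∀ n, ∀ y ∈ (w n).2, ∀ f, S f y = (w n).1 f y := by
    intro n y hy f
    refine tendsto_nhds_unique (hev f y) (tendsto_const_nhds.congr' ?_)
    filter_upwards [eventually_ge_atTop n] with m hm
    exact ((hconst n y hy m hm).2 f).symm
  have hS' : ∀ f y, e' f y = S f y := by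
    intro f y
    rw [← he']
    rfl
  refine ⟨e', ?_, ?_, ?_, ?_⟩
  · intro f hf y
    change 0 ≤ e' f y
    rw [hS']
    exact ge_of_tendsto (hev f y) (Eventually.of_forall fun n => (hw n).1.1 f hf y)
  · rw [he']
    exact hS1.trans hδε
  · intro y
    obtain ⟨n, rfl⟩ := hyn y
    have hmem := (hw n).2.2.2.2.1
    exact ((hw (n + 1)).1.2.2 _ hmem).congr fun f => by rw [hS', hfin (n + 1) _ hmem]
  · intro x
    obtain ⟨n, rfl⟩ := hxn x
    obtain ⟨lam, hlam⟩ := (hw n).2.2.2.2.2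
    refine (FS.sum (w (n + 1)).2 (φ := fun y (g : C(L, ℝ)) => lam y * g y)
      fun y _ => (FS.eval y).smul _).congr fun g => ?_
    rw [hlam]
    refine Finset.sum_congr rfl fun y hy => ?_
    rw [← hfin (n + 1) y hy, ← hS', e'.apply_symm_apply]

theorem cp_continuous' (T : C(L, ℝ) → C(K, ℝ)) (h : ∀ y, FS fun f => T f y) :
    @Continuous _ _ (cpTop L) (cpTop K) T := cp_continuous T h

/-- Every positive isomorphism is a limit of positive pointwise homeomorphisms. -/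
theorem approx (e : C(K, ℝ) ≃L[ℝ] C(L, ℝ))
    (he : Pos (e : C(K, ℝ) →L[ℝ] C(L, ℝ))) {ε : ℝ} (hε : 0 < ε) :
    ∃ e' : C(K, ℝ) ≃L[ℝ] C(L, ℝ), Pos (e' : C(K, ℝ) →L[ℝ] C(L, ℝ)) ∧
      ‖(e' : C(K, ℝ) →L[ℝ] C(L, ℝ)) - e‖ ≤ ε ∧ @Continuous _ _ (cpTop K) (cpTop L) e' ∧
      @Continuous _ _ (cpTop L) (cpTop K) e'.symm := by
  have hcases : (Nonempty K ∧ Nonempty L) ∨ (Subsingleton C(K, ℝ) ∧ Subsingleton C(L, ℝ)) := by
    rcases isEmpty_or_nonempty K with hK | hK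
    · right
      have h1 : Subsingleton C(K, ℝ) := ⟨fun f g => by ext x; exact (hK.false x).elim⟩
      exact ⟨h1, e.symm.injective.subsingleton⟩
    · rcases isEmpty_or_nonempty L with hL | hL
      · right
        have h1 : Subsingleton C(L, ℝ) := ⟨fun f g => by ext x; exact (hL.false x).elim⟩
        exact ⟨e.injective.subsingleton, h1⟩
      · exact Or.inl ⟨hK, hL⟩
  rcases hcases with ⟨hK, hL⟩ | ⟨hK, hL⟩
  · obtain ⟨e', h1, h2, h3, h4⟩ := approx_aux e he hε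
    exact ⟨e', h1, h2, cp_continuous _ h3, cp_continuous' _ h4⟩
  · refine ⟨e, he, norm_self _ hε.le, ?_, ?_⟩
    · exact @continuous_of_const _ _ (cpTop K) (cpTop L) _ fun x y =>
        congrArg _ (Subsingleton.elim x y)
    · exact @continuous_of_const _ _ (cpTop L) (cpTop K) _ fun x y =>
        congrArg _ (Subsingleton.elim x y)

/-- A positive linear bijection is automatically a positive isomorphism. -/
theorem auto (T : C(K, ℝ) ≃ₗ[ℝ] C(L, ℝ)) (hT : ∀ f : C(K, ℝ), 0 ≤ f → 0 ≤ T f) :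
    Continuous T ∧ Continuous T.symm := by
  have hpt : ∀ f g : C(K, ℝ), (∀ x, f x ≤ g x) → ∀ y, T f y ≤ T g y := by
    intro f g h y
    have h1 : 0 ≤ T (g - f) := hT _ (by
      intro x
      have := h x
      change 0 ≤ g x - f x
      linarith)
    have h2 : 0 ≤ T (g - f) y := h1 y
    rw [map_sub, ContinuousMap.sub_apply] at h2
    linarith
  have hb : ∀ f : C(K, ℝ), ‖T f‖ ≤ ‖T 1‖ * ‖f‖ := by
    intro f
    rw [ContinuousMap.norm_le _ (mul_nonneg (norm_nonneg _) (norm_nonneg _))]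
    intro y
    have h1 : T f y ≤ T (‖f‖ • (1 : C(K, ℝ))) y := hpt _ _ (fun x => by
      have := (abs_le.1 (abs_apply_le f x)).2
      simpa using this) y
    have h2 : T (-(‖f‖ • (1 : C(K, ℝ)))) y ≤ T f y := hpt _ _ (fun x => by
      have := (abs_le.1 (abs_apply_le f x)).1
      simpa using this) y
    rw [map_smul, ContinuousMap.smul_apply, smul_eq_mul] at h1
    rw [map_neg, map_smul, ContinuousMap.neg_apply, ContinuousMap.smul_apply, smul_eq_mul] at h2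
    have h3 : ‖f‖ * T 1 y ≤ ‖T 1‖ * ‖f‖ := by
      rw [mul_comm]
      exact mul_le_mul_of_nonneg_right ((le_abs_self _).trans (abs_apply_le (T 1) y))
        (norm_nonneg _)
    rw [Real.norm_eq_abs, abs_le]
    constructor <;> linarith
  have hc : Continuous T := AddMonoidHomClass.continuous_of_bound T ‖T 1‖ hb
  exact ⟨hc, (T.toContinuousLinearEquivOfContinuous hc).symm.continuous⟩

end Pool.Agent.K1H32.CP
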