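import Mathlib
import Pool.Agent.H731R2.Riesz

/-!
# Countable compact spaces: clopen sets, indicators, representation of functionals
-/

set_option autoImplicit false
set_option linter.unusedSectionVars false

open MeasureTheory Filter Topology Set

namespace Pool.Agent.K1H32.CP

universe u v

section Top

variable {X : Type u} [TopologicalSpace X] [CompactSpace X] [T2Space X] [Countable X]

instance tsp : TotallySeparatedSpace X := by
  have : T35Space X := inferInstance
  infer_instance

/-- a point has a clopen neighbourhood missing a given finite set -/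
theorem exists_clopen {x : X} (F : Finset X) (hx : x ∉ F) :
    ∃ V : Set X, IsClopen V ∧ x ∈ V ∧ ∀ z ∈ F, z ∉ V := by
  have hF : IsOpen ((F : Set X)ᶜ) := (F.finite_toSet.isClosed).isOpen_compl
  obtain ⟨V, hV, hxV, hVF⟩ := compact_exists_isClopen_in_isOpen hF (by simpa using hx)
  exact ⟨V, hV, hxV, fun z hz hzV => hVF hzV (by simpa using hz)⟩

/-- a point has a clopen neighbourhood inside a neighbourhood and missing a finite set -/
theorem exists_clopen' {x : X} (F : Finset X) (hx : x ∉ F) {W : Set X} (hW : IsOpen W)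
    (hxW : x ∈ W) : ∃ V : Set X, IsClopen V ∧ x ∈ V ∧ V ⊆ W ∧ ∀ z ∈ F, z ∉ V := by
  have hF : IsOpen ((F : Set X)ᶜ) := (F.finite_toSet.isClosed).isOpen_compl
  obtain ⟨V, hV, hxV, hVF⟩ := compact_exists_isClopen_in_isOpen (hF.inter hW)
    ⟨by simpa using hx, hxW⟩
  exact ⟨V, hV, hxV, fun z hz => (hVF hz).2, fun z hz hzV => (hVF hzV).1 (by simpa using hz)⟩

/-- the indicator of a clopen set -/
noncomputable def ind (V : Set X) (hV : IsClopen V) : C(X, ℝ) :=
  ⟨V.indicator (fun _ => (1 : ℝ)), (continuous_const).indicator (by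
    intro a ha
    rw [hV.frontier_eq] at ha
    exact absurd ha (Set.notMem_empty a))⟩

theorem ind_mem {V : Set X} (hV : IsClopen V) {x : X} (hx : x ∈ V) : ind V hV x = 1 := by
  change V.indicator (fun _ => (1 : ℝ)) x = 1
  rw [Set.indicator_of_mem hx]

theorem ind_notMem {V : Set X} (hV : IsClopen V) {x : X} (hx : x ∉ V) : ind V hV x = 0 := by
  change V.indicator (fun _ => (1 : ℝ)) x = 0
  rw [Set.indicator_of_notMem hx]

theorem ind_nonneg {V : Set X} (hV : IsClopen V) (x : X) : 0 ≤ ind V hV x := by
  by_cases hx : x ∈ V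
  · rw [ind_mem hV hx]; exact zero_le_one
  · rw [ind_notMem hV hx]

theorem ind_le_one {V : Set X} (hV : IsClopen V) (x : X) : ind V hV x ≤ 1 := by
  by_cases hx : x ∈ V
  · rw [ind_mem hV hx]
  · rw [ind_notMem hV hx]; exact zero_le_one

/-- the complement of a finite set is an increasing union of clopen sets -/
theorem exists_exhaustion (A : Finset X) : ∃ W : ℕ → Set X, W 0 = ∅ ∧ Monotone W ∧
    (∀ n, IsClopen (W n)) ∧ (∀ n, ∀ z ∈ A, z ∉ W n) ∧ ∀ x ∉ A, ∃ n, x ∈ W n := by
  classical
  have hN : ∀ x : X, ∃ V : Set X, IsClopen V ∧ (x ∉ A → x ∈ V) ∧ ∀ z ∈ A, z ∉ V := by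
    intro x
    by_cases hx : x ∈ A
    · exact ⟨∅, isClopen_empty, fun h => absurd hx h, fun z _ h => h⟩
    · obtain ⟨V, h1, h2, h3⟩ := exists_clopen A hx
      exact ⟨V, h1, fun _ => h2, h3⟩
  choose N hN1 hN2 hN3 using hN
  obtain ⟨j, hj⟩ := exists_injective_nat X
  refine ⟨fun n => ⋃ x ∈ {x : X | j x < n}, N x, ?_, ?_, ?_, ?_, ?_⟩
  · simp
  · intro n m hnm
    exact biUnion_subset_biUnion_left fun x hx => lt_of_lt_of_le hx hnm
  · intro n
    have hfin : {x : X | j x < n}.Finite :=
      Set.Finite.of_injOn (f := j) (t := Set.Iio n) (fun x hx => hx) (hj.injOn) (Set.finite_Iio n)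
    exact hfin.isClopen_biUnion fun x _ => hN1 x
  · intro n z hz hzW
    simp only [mem_iUnion] at hzW
    obtain ⟨x, _, hx⟩ := hzW
    exact hN3 x z hz hx
  · intro x hx
    refine ⟨j x + 1, ?_⟩
    simp only [mem_iUnion]
    exact ⟨x, Nat.lt_succ_self _, hN2 x hx⟩

/-- a continuous function of norm at most one with prescribed values on a finite set -/
theorem exists_interp (s : X → ℝ) (hs : ∀ x, |s x| ≤ 1) (C : Finset X) :
    ∃ f : C(X, ℝ), ‖f‖ ≤ 1 ∧ ∀ z ∈ C, f z = s z := by
  classical
  induction C using Finset.induction_on with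
  | empty => exact ⟨0, by simp, by simp⟩
  | insert z C hz ih =>
    obtain ⟨f, hf1, hf2⟩ := ih
    obtain ⟨V, hV, hzV, hCV⟩ := exists_clopen C hz
    refine ⟨s z • ind V hV + (1 - ind V hV) * f, ?_, ?_⟩
    · rw [ContinuousMap.norm_le _ zero_le_one]
      intro x
      by_cases hx : x ∈ V
      · simp only [ContinuousMap.add_apply, ContinuousMap.smul_apply, ContinuousMap.mul_apply,
          ContinuousMap.sub_apply, ContinuousMap.one_apply, ind_mem hV hx, smul_eq_mul]
        simpa using hs z
      · simp only [ContinuousMap.add_apply, ContinuousMap.smul_apply, ContinuousMap.mul_apply,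
          ContinuousMap.sub_apply, ContinuousMap.one_apply, ind_notMem hV hx, smul_eq_mul]
        have := f.norm_coe_le_norm x
        simpa using this.trans hf1
    · intro w hw
      rw [Finset.mem_insert] at hw
      rcases hw with rfl | hw
      · simp [ind_mem hV hzV]
      · have hwV := hCV w hw
        simp [ind_notMem hV hwV, hf2 w hw]

end Top

section Rep

variable {X : Type u} [TopologicalSpace X] [CompactSpace X] [T2Space X]

/-- real part -/
noncomputable def reC (h : C(X, ℂ)) : C(X, ℝ) := ⟨fun x => (h x).re, by fun_prop⟩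
/-- imaginary part -/
noncomputable def imC (h : C(X, ℂ)) : C(X, ℝ) := ⟨fun x => (h x).im, by fun_prop⟩

theorem norm_reC (h : C(X, ℂ)) : ‖reC h‖ ≤ ‖h‖ := by
  rw [ContinuousMap.norm_le _ (norm_nonneg _)]
  intro x
  exact (Complex.abs_re_le_norm _).trans (h.norm_coe_le_norm x)

theorem norm_imC (h : C(X, ℂ)) : ‖imC h‖ ≤ ‖h‖ := by
  rw [ContinuousMap.norm_le _ (norm_nonneg _)]
  intro x
  exact (Complex.abs_im_le_norm _).trans (h.norm_coe_le_norm x)

/-- the complexification of a real functional -/
noncomputable def cplx (φ : C(X, ℝ) →L[ℝ] ℝ) : StrongDual ℂ C(X, ℂ) :=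
  LinearMap.mkContinuous
    { toFun := fun h => (φ (reC h) : ℂ) + (φ (imC h) : ℂ) * Complex.I
      map_add' := by
        intro h k
        have h1 : reC (h + k) = reC h + reC k := by ext x; simp [reC]
        have h2 : imC (h + k) = imC h + imC k := by ext x; simp [imC]
        rw [h1, h2, map_add, map_add]
        push_cast
        ring
      map_smul' := by
        intro c h
        have h1 : reC (c • h) = c.re • reC h - c.im • imC h := by
          ext x; simp [reC, imC]
        have h2 : imC (c • h) = c.re • imC h + c.im • reC h := by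
          ext x; simp [reC, imC]
        rw [h1, h2, map_sub, map_add, map_smul, map_smul, map_smul, map_smul]
        simp only [smul_eq_mul, RingHom.id_apply]
        push_cast
        conv_rhs => rw [← Complex.re_add_im c]
        linear_combination (-(c.im : ℂ) * (φ (imC h) : ℂ)) * Complex.I_sq }
    (2 * ‖φ‖) (by
      intro h
      change ‖(φ (reC h) : ℂ) + (φ (imC h) : ℂ) * Complex.I‖ ≤ _
      have h1 : ‖φ (reC h)‖ ≤ ‖φ‖ * ‖h‖ :=
        (φ.le_opNorm _).trans (mul_le_mul_of_nonneg_left (norm_reC h) (norm_nonneg _))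
      have h2 : ‖φ (imC h)‖ ≤ ‖φ‖ * ‖h‖ :=
        (φ.le_opNorm _).trans (mul_le_mul_of_nonneg_left (norm_imC h) (norm_nonneg _))
      refine (norm_add_le _ _).trans ?_
      rw [norm_mul, Complex.norm_I, mul_one, Complex.norm_real, Complex.norm_real]
      linarith)

variable [Countable X]

/-- A bounded functional on the real continuous functions on a countable compact space is an
absolutely convergent sum of point evaluations. -/
theorem repr (φ : C(X, ℝ) →L[ℝ] ℝ) :
    ∃ a : X → ℝ, Summable (fun x => |a x|) ∧ ∀ f : C(X, ℝ), φ f = ∑' x, a x * f x := by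
  borelize X
  obtain ⟨μ, hμ, -, w, hw⟩ := Pool.Agent.H731R2.exists_density (cplx φ)
  have hwi : Integrable (w : X → ℂ) μ :=
    (Lp.memLp w).integrable (by norm_num)
  have hsum : ∀ g : X → ℂ, Integrable g μ → HasSum (fun x => μ.real {x} • g x)
      (∫ x, g x ∂μ) := by
    intro g hg
    have hg' := hg
    rw [← Measure.sum_smul_dirac μ] at hg'
    have h1 := hasSum_integral_measure hg'
    rw [Measure.sum_smul_dirac] at h1
    have h2 : (fun i => ∫ x, g x ∂(μ {i} • Measure.dirac i)) = fun i => μ.real {i} • g i := by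
      funext i
      rw [integral_smul_measure, integral_dirac, measureReal_def]
    rw [h2] at h1
    exact h1
  have hsumn : Summable (fun x => μ.real {x} * ‖w x‖) := by
    have hn : Integrable (fun x => ((‖w x‖ : ℝ) : ℂ)) μ := hwi.norm.ofReal
    have h1 := (hsum _ hn).summable
    have h2 : Summable (fun x => (((μ.real {x} * ‖w x‖ : ℝ)) : ℂ)) := by
      refine h1.congr fun x => ?_
      rw [Complex.real_smul]
      push_cast
      rfl
    exact_mod_cast h2
  refine ⟨fun x => μ.real {x} * (w x).re, ?_, ?_⟩
  · refine Summable.of_nonneg_of_le (fun x => abs_nonneg _) (fun x => ?_) hsumn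
    rw [abs_mul, abs_of_nonneg measureReal_nonneg]
    exact mul_le_mul_of_nonneg_left (Complex.abs_re_le_norm _) measureReal_nonneg
  · intro f
    let fc : C(X, ℂ) := ⟨fun x => (f x : ℂ), by fun_prop⟩
    have hre : reC fc = f := by ext x; simp [reC, fc]
    have him : imC fc = 0 := by ext x; simp [imC, fc]
    have h1 : cplx φ fc = (φ f : ℂ) := by
      change (φ (reC fc) : ℂ) + (φ (imC fc) : ℂ) * Complex.I = _
      rw [hre, him, map_zero]
      simp
    have hint : Integrable (fun x => fc x * w x) μ := by
      refine hwi.bdd_mul (c := ‖fc‖) ?_ ?_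
      · exact fc.continuous.aestronglyMeasurable
      · exact Filter.Eventually.of_forall fun x => fc.norm_coe_le_norm x
    have h2 := hsum _ hint
    rw [← hw fc, h1] at h2
    have h3 := Complex.reCLM.hasSum h2
    have h4 : φ f = ∑' x, Complex.reCLM (μ.real {x} • (fc x * w x)) := by
      rw [h3.tsum_eq]
      simp
    rw [h4]
    refine tsum_congr fun x => ?_
    simp [fc]
    ring

end Rep

end Pool.Agent.K1H32.CP
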